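import Mathlib
import Pool.Agent.H68.MG.Sharp

set_option autoImplicit false

/-! The number of colours needed to destroy all representations of `2n` as a sum of two distinct primes
for the `n` divisible by one of finitely many given primes. -/

namespace Pool.Agent.Results.MP_7b7e48_nt.ColoursAtSmallPrimes

/-- The representations `2n = p + q` with primes `p < q` of the same colour. -/
def monoReps {r : ℕ} (χ : ℕ → Fin r) (n : ℕ) : Finset (ℕ × ℕ) :=
  (Finset.range (2 * n + 1) ×ˢ Finset.range (2 * n + 1)).filter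
    (fun p => p.1.Prime ∧ p.2.Prime ∧ p.1 < p.2 ∧ p.1 + p.2 = 2 * n ∧ χ p.1 = χ p.2)

open Classical in
theorem result (P : Finset ℕ) (hP : ∀ l ∈ P, l.Prime) :
    (∃ χ : ℕ → Fin (2 ^ P.card), ∀ n : ℕ, (∃ l ∈ P, l ∣ n) → monoReps χ n = ∅) ∧
    (∀ r < 2 ^ P.card, ∃ c : ℝ, 0 < c ∧ ∃ x₀ : ℕ, ∀ x ≥ x₀, ∀ χ : ℕ → Fin r,
      c * x ≤ (((Finset.Icc 1 x).filter
        (fun n => (∃ l ∈ P, l ∣ n) ∧ c * x / Real.log x ^ 2 ≤ ((monoReps χ n).card : ℝ))).card : ℝ)) := by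
  refine ⟨Pool.Agent.H68.MG.sharp P hP, fun r hr => ?_⟩
  obtain ⟨c, hc, x₀, h⟩ := Pool.Agent.H68.MG.optimal P hP r hr
  refine ⟨c, hc, x₀, fun x hx χ => (h x hx χ).trans (le_of_eq ?_)⟩
  congr 2

end Pool.Agent.Results.MP_7b7e48_nt.ColoursAtSmallPrimes
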