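import Pool.Agent.H68.GB.All

/-!
# The Riemann hypothesis does not imply the theorem of Linnik and Kátai for generalised primes

On the Riemann hypothesis every interval `[y, y + C (log y) ^ 2]` with large `y` contains a sum of two primes (Linnik, Kátai,
Montgomery and Vaughan, Goldston). The theorem here: for generalised primes (Beurling primes) nothing of the kind follows from the
analogues of the Riemann hypothesis and of the Lindelöf hypothesis and from a regular distribution of the generalised
integers, not even with `(log y) ^ 2` replaced by `y ^ o(1)`.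

A system of generalised primes is a sequence `1 < q 0 < q 1 < ...` of real numbers; its generalised integers are the products
`gint q n = ∏ q (k - 1)` over the prime factors of `n` (with multiplicity, the factor being the `k`-th prime number), one for
every `n ≥ 1`, counted with multiplicity; for `q = 2, 3, 5, ...` one has `gint q n = n`.

Proof. The primes are placed in cells of mass one with respect to the density `(1 - 1 / u) / log u`. For a sparse sequence of
numbers `y` the cells between `y ^ (1/4)` and `y / 2` and their images under `u ↦ y - u` are grouped into windows of the length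
`y ^ o(1)`. Independent random signs decide whether the right window of a pair is filled twice or not at all; a left
window is filled four times if its sign and the preceding one agree in the favourable sense, else it is empty. So a sum of two
primes never falls into `[y, y + h y]`, but every point is still expected with the right density; the positions in a window are
equally spaced after a random translation. The method of conditional expectations for tests which depend on two consecutive
choices and on countably many frequencies makes the twisted sums `∑_{q ≤ x} q ^ (-i m)` small for all `m` and `x`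
(`Pool.Agent.H68.GB`, written with helper39, helper40, helper53, helper58, helper95). The analytic continuation of the zeta
function from these sums and the distribution of the generalised integers are in `Pool.Agent.H49.BP` (helper49).
-/

set_option autoImplicit false

open Filter Topology MeasureTheory

namespace Pool.Agent.H68.Kept.LinnikKataiInRHSystems

open Pool.Agent.H49.BP

/-- The number of generalised primes up to `x`. -/
noncomputable def primeCount (q : ℕ → ℝ) (x : ℝ) : ℕ := {j : ℕ | q j ≤ x}.ncard

/-- The number of generalised integers up to `x`, with multiplicity. -/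
noncomputable def intCount (q : ℕ → ℝ) (x : ℝ) : ℕ := {n : ℕ | 1 ≤ n ∧ gint q n ≤ x}.ncard

/-- The generalised primes `q` satisfy the analogues of the Riemann hypothesis and of the Lindelöf hypothesis: they increase
strictly from `q 0 > 1`; their number up to `x` is `∫_2^x du / log u + O(x ^ (1 / 2 + ε))` for every `ε > 0`; the number of the
generalised integers up to `x` is `ρ x + O(x ^ (1 / 2 + ε))` for every `ε > 0`, with a `ρ > 0`; the zeta function is
`s / (s - 1) * exp (G s)` for `Re s > 1`, with a function `G` that is holomorphic in `Re s > 1 / 2` and at most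
`C √(log (|Im s| + 3))` for `Re s ≥ σ`, for every `σ > 1 / 2`. -/
def RHSystem (q : ℕ → ℝ) : Prop :=
  StrictMono q ∧ 1 < q 0 ∧
    (∀ ε : ℝ, 0 < ε → ∃ C : ℝ, ∀ x : ℝ, 2 ≤ x →
      |(primeCount q x : ℝ) - ∫ u in (2 : ℝ)..x, (Real.log u)⁻¹| ≤ C * x ^ (1 / 2 + ε)) ∧
    (∃ ρ : ℝ, 0 < ρ ∧ ∀ ε : ℝ, 0 < ε → ∃ C : ℝ, ∀ x : ℝ, 1 ≤ x →
      |(intCount q x : ℝ) - ρ * x| ≤ C * x ^ (1 / 2 + ε)) ∧
    ∃ G : ℂ → ℂ, DifferentiableOn ℂ G {s | 1 / 2 < s.re} ∧
      (∀ s : ℂ, 1 < s.re → ∑' n : ℕ, ((gint q (n + 1) : ℝ) : ℂ) ^ (-s) = s / (s - 1) * Complex.exp (G s)) ∧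
      ∀ σ : ℝ, 1 / 2 < σ → ∃ C : ℝ, ∀ s : ℂ, σ ≤ s.re → ‖G s‖ ≤ C * √(Real.log (|s.im| + 3))

theorem rh_of {q : ℕ → ℝ} (hmono : StrictMono q) (hg : ∀ n : ℕ, (n : ℝ) + 1 ≤ q n) (hq0 : 1 < q 0)
    (hD : Disc q) : RHSystem q := by
  obtain ⟨G, hG1, hG2, hG3, ρ, hρ, hN⟩ := zeta hmono hg hq0 hD
  refine ⟨hmono, hq0, Pool.Agent.H68.GB.pnt_of hD, ⟨ρ, hρ, fun ε hε => ?_⟩, G, hG1, hG2, hG3⟩
  obtain ⟨C, hC⟩ := hN ε hε
  refine ⟨C, fun x hx => ?_⟩
  have e : intCount q x = {n : ℕ | gint q (n + 1) ≤ x}.ncard := by
    unfold intCount
    have h1 : {n : ℕ | 1 ≤ n ∧ gint q n ≤ x} = (fun n => n + 1) '' {n : ℕ | gint q (n + 1) ≤ x} := by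
      ext n
      constructor
      · rintro ⟨h2, h3⟩
        refine ⟨n - 1, ?_, by simp only; omega⟩
        show gint q (n - 1 + 1) ≤ x
        rw [Nat.sub_add_cancel h2]
        exact h3
      · rintro ⟨k, hk, rfl⟩
        exact ⟨by simp only; omega, hk⟩
    rw [h1, Set.ncard_image_of_injective _ (fun a b hab => by simpa using hab)]
  rw [e]
  exact hC x hx

/-- Let `h` be a function with `h x = O(x ^ ε)` for every `ε > 0` (for instance `h x = exp (√(log x))`, which is larger than every
power of `log x`). There are generalised primes with the analogues of the Riemann hypothesis and of the Lindelöf hypothesis such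
that for arbitrarily large `y` the interval `[y, y + h y]` contains no sum of two (equal or different) generalised primes. -/
theorem result (h : ℝ → ℝ) (hh : ∀ ε : ℝ, 0 < ε → ∃ C : ℝ, ∀ x : ℝ, 1 ≤ x → h x ≤ C * x ^ ε) :
    ∃ q : ℕ → ℝ, RHSystem q ∧
      ∀ Y : ℝ, ∃ y : ℝ, Y ≤ y ∧ ∀ i j : ℕ, ¬ (y ≤ q i + q j ∧ q i + q j ≤ y + h y) := by
  obtain ⟨q, h1, h2, h3, h4, h5⟩ := Pool.Agent.H68.GB.system hh
  refine ⟨q, rh_of h1 h2 h3 h4, fun Y => ?_⟩
  obtain ⟨y, hY, hy⟩ := h5 Y
  refine ⟨y, hY, fun i j hij => ?_⟩
  rcases hy i j with h6 | h6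
  · linarith [hij.1]
  · linarith [hij.2]

end Pool.Agent.H68.Kept.LinnikKataiInRHSystems
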